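import Pool.Agent.Helper87.P3.Spec

/-! PL: the abstract pair lemma. -/

set_option autoImplicit false

namespace Pool.Agent.Helper6.P3

open Finset Pool.Agent.Helper87.P3

/-- minimal non-`Lo` subsets exist -/
lemma exists_min {M : Type} [DecidableEq M] (Lo : Finset M → Prop) :
    ∀ (n : ℕ) (A : Finset M), A.card = n → ¬ Lo A →
      ∃ U ⊆ A, ¬ Lo U ∧ ∀ h ∈ U, Lo (U.erase h) := by
  intro n
  induction n using Nat.strong_induction_on with
  | _ n ih =>
    intro A hn hA
    by_cases h : ∀ h ∈ A, Lo (A.erase h)
    · exact ⟨A, subset_rfl, hA, h⟩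
    · push Not at h
      obtain ⟨g, hg, hg'⟩ := h
      obtain ⟨U, hU, h1, h2⟩ := ih (A.erase g).card (hn ▸ card_erase_lt_of_mem hg) _ rfl hg'
      exact ⟨U, hU.trans (erase_subset _ _), h1, h2⟩

theorem pl : S_PL := by
  classical
  intro M _ S Y₁ Y₂ Lo Wx C hLo hWx hWL hsplit hdisj hunion hY₁ hY₂ hC hcl
  have key : ∀ (n : ℕ) (V : Finset M), (Y₁ \ V).card = n → ¬ C V := by
    intro n
    induction n using Nat.strong_induction_on with
    | _ n ih =>
      intro V hn hCV
      obtain ⟨hVS, hLV, hVe⟩ := hC V hCV
      have hY1S : Y₁ ⊆ S := hunion ▸ subset_union_left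
      have hY2S : Y₂ ⊆ S := hunion ▸ subset_union_right
      -- `g'`
      have h1 : ¬ Y₁ ⊆ V := fun h => hWL _ (hWx _ _ h hY₁) hLV
      obtain ⟨g', hg'1, hg'V⟩ := not_subset.1 h1
      have hg'S : g' ∈ S \ V := mem_sdiff.2 ⟨hY1S hg'1, hg'V⟩
      have h2 : Wx (insert g' V) := by
        rcases hsplit (insert g' V) ((S \ V).erase g') (by
          rw [disjoint_left]
          intro z hz hz'
          simp only [mem_insert, mem_erase, mem_sdiff] at hz hz'
          tauto) (by
          ext z
          simp only [mem_union, mem_insert, mem_erase, mem_sdiff]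
          constructor
          · rintro ((rfl | h) | h)
            · exact hY1S hg'1
            · exact hVS h
            · exact h.2.1
          · intro h
            by_cases hz : z = g'
            · exact Or.inl (Or.inl hz)
            · by_cases hzV : z ∈ V
              · exact Or.inl (Or.inr hzV)
              · exact Or.inr ⟨hz, h, hzV⟩) with h | h
        · exact h
        · exact absurd (hVe g' hg'S) (hWL _ h)
      have h3 : ¬ Lo (insert g' V) := hWL _ h2
      -- `U'`
      set T := (insert g' V).powerset.filter fun U => ¬ Lo U ∧ ∀ h ∈ U, Lo (U.erase h) with hT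
      have hTne : T.Nonempty := by
        obtain ⟨U, hU, h4, h5⟩ := exists_min Lo _ _ rfl h3
        exact ⟨U, by rw [hT, mem_filter, mem_powerset]; exact ⟨hU, h4, h5⟩⟩
      obtain ⟨U', hU'T, hU'min⟩ := exists_min_image T (fun U => (U ∩ Y₂).card) hTne
      rw [hT, mem_filter, mem_powerset] at hU'T
      obtain ⟨hU'sub, hU'n, hU'e⟩ := hU'T
      have hU'S : U' ⊆ S := hU'sub.trans (insert_subset (hY1S hg'1) hVS)
      have hC1 : C (S \ U') := hcl V hCV g' hg'S U' hU'sub hU'n hU'e
      obtain ⟨-, hLV1, -⟩ := hC _ hC1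
      -- `g''`
      have h4 : (U' ∩ Y₂).Nonempty := by
        by_contra h
        rw [not_nonempty_iff_eq_empty] at h
        apply hWL _ (hWx _ _ _ hY₂) hLV1
        intro z hz
        refine mem_sdiff.2 ⟨hY2S hz, fun hzU => ?_⟩
        have : z ∈ U' ∩ Y₂ := mem_inter.2 ⟨hzU, hz⟩
        rw [h] at this
        exact absurd this (notMem_empty _)
      obtain ⟨g'', hg''⟩ := h4
      rw [mem_inter] at hg''
      have hne : g'' ≠ g' := by
        rintro rfl
        exact (disjoint_left.1 hdisj) hg'1 hg''.2
      set R := insert g' ((V ∩ Y₁) ∪ (U' ∩ Y₂).erase g'') with hR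
      have hRsub : R ⊆ insert g' V := by
        rw [hR]
        apply insert_subset (mem_insert_self _ _)
        apply union_subset
        · exact inter_subset_left.trans (subset_insert _ _)
        · exact (erase_subset _ _).trans (inter_subset_left.trans hU'sub)
      have hRS : R ⊆ S := hRsub.trans (insert_subset (hY1S hg'1) hVS)
      have hRLo : Lo R := by
        by_contra h
        obtain ⟨U, hU, h5, h6⟩ := exists_min Lo _ _ rfl h
        have h7 := hU'min U (by rw [hT, mem_filter, mem_powerset]; exact ⟨hU.trans hRsub, h5, h6⟩)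
        have h8 : U ∩ Y₂ ⊆ (U' ∩ Y₂).erase g'' := by
          intro z hz
          rw [mem_inter] at hz
          have h9 := hU hz.1
          rw [hR, mem_insert, mem_union, mem_inter] at h9
          rcases h9 with h9 | h9 | h9
          · rw [h9] at hz; exact absurd hz.2 ((disjoint_left.1 hdisj) hg'1)
          · exact absurd hz.2 ((disjoint_left.1 hdisj) h9.2)
          · exact h9
        have h9 := card_le_card h8
        rw [card_erase_of_mem (mem_inter.2 hg'')] at h9
        have h10 : 0 < (U' ∩ Y₂).card := card_pos.2 ⟨g'', mem_inter.2 hg''⟩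
        omega
      have hWSR : Wx (S \ R) := by
        rcases hsplit R (S \ R) disjoint_sdiff (union_sdiff_of_subset hRS) with h | h
        · exact absurd hRLo (hWL _ h)
        · exact h
      have hsub2 : S \ R ⊆ insert g'' (S \ U') := by
        intro z hz
        rw [mem_sdiff] at hz
        rw [mem_insert, mem_sdiff]
        by_cases hzg : z = g''
        · exact Or.inl hzg
        right
        refine ⟨hz.1, fun hzU => hz.2 ?_⟩
        rw [hR, mem_insert, mem_union, mem_inter, mem_erase, mem_inter]
        by_cases hz2 : z ∈ Y₂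
        · exact Or.inr (Or.inr ⟨hzg, hzU, hz2⟩)
        · have hz1 : z ∈ Y₁ := by
            have : z ∈ Y₁ ∪ Y₂ := by rw [hunion]; exact hz.1
            rcases mem_union.1 this with h | h
            · exact h
            · exact absurd h hz2
          rcases mem_insert.1 (hU'sub hzU) with h | h
          · exact Or.inl h
          · exact Or.inr (Or.inl ⟨h, hz1⟩)
      obtain ⟨U2, hU2, h5, h6⟩ := exists_min Lo _ _ rfl (hWL _ hWSR)
      have hC2 : C (S \ U2) := by
        refine hcl (S \ U') hC1 g'' ?_ U2 (hU2.trans hsub2) h5 h6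
        rw [mem_sdiff, mem_sdiff]
        exact ⟨hU'S hg''.1, fun h => h.2 hg''.1⟩
      refine ih (Y₁ \ (S \ U2)).card ?_ (S \ U2) rfl hC2
      rw [← hn]
      apply card_lt_card
      rw [ssubset_iff_of_subset]
      · refine ⟨g', mem_sdiff.2 ⟨hg'1, hg'V⟩, fun h => ?_⟩
        rw [mem_sdiff, mem_sdiff] at h
        apply h.2
        refine ⟨hY1S hg'1, fun h' => ?_⟩
        exact (mem_sdiff.1 (hU2 h')).2 (by rw [hR]; exact mem_insert_self _ _)
      · intro z hz
        rw [mem_sdiff] at hz ⊢
        refine ⟨hz.1, fun hzV => hz.2 ?_⟩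
        rw [mem_sdiff]
        refine ⟨hY1S hz.1, fun h' => ?_⟩
        apply (mem_sdiff.1 (hU2 h')).2
        rw [hR, mem_insert, mem_union, mem_inter]
        exact Or.inr (Or.inl ⟨hzV, hz.1⟩)
  exact fun V => key _ V rfl

end Pool.Agent.Helper6.P3
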