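import Pool.Agent.Helper6.P3.PL

/-! TWO: two winners. -/

set_option autoImplicit false

namespace Pool.Agent.Helper6.P3

open Finset Pool.Agent.Helper87.P3

section basic

variable {M ι : Type} [DecidableEq M] {I : Inst M ι} {u : ι → ℕ}

lemma cheap_sub {A B : Finset M} (h : A ⊆ B) (hB : cheap I u B) : cheap I u A :=
  fun k => (I.mono k _ _ h).trans (hB k)

/-- values of a minimal bundle -/
lemma emin_le {A : Finset M} (h : emin I u A) (k : ι) : I.v k A ≤ u k + 1 := by
  rcases A.eq_empty_or_nonempty with rfl | ⟨g, hg⟩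
  · rw [I.v0]; omega
  · have h1 := I.unit k (A.erase g) g
    rw [insert_erase hg] at h1
    exact h1.trans (Nat.add_le_add_right (h g hg k) 1)

lemma erase_ge {A : Finset M} {g : M} (hg : g ∈ A) (k : ι) : I.v k A ≤ I.v k (A.erase g) + 1 := by
  have h1 := I.unit k (A.erase g) g
  rwa [insert_erase hg] at h1

/-- B1 -/
lemma exists_mn {A : Finset M} (h : ¬ cheap I u A) :
    ∃ Z ⊆ A, ¬ cheap I u Z ∧ emin I u Z ∧ ∃ k, win I u k Z := by
  obtain ⟨Z, hZ, h1, h2⟩ := exists_min (cheap I u) _ A rfl h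
  refine ⟨Z, hZ, h1, h2, ?_⟩
  unfold cheap at h1
  push Not at h1
  obtain ⟨k, hk⟩ := h1
  exact ⟨k, h2, le_antisymm (emin_le h2 k) hk⟩

/-- B2 -/
lemma dem_erase {k : ι} {U : Finset M} (h : win I u k U) {g : M} (hg : g ∈ U) :
    dem I u k (U.erase g) := by
  refine ⟨h.1 g hg, le_antisymm (h.1 g hg k) ?_⟩
  have h1 := erase_ge (I := I) hg k
  rw [h.2] at h1
  omega

lemma dem_mono {k : ι} {A B : Finset M} (h : A ⊆ B) (hB : cheap I u B) (hA : dem I u k A) :
    dem I u k B :=
  ⟨hB, le_antisymm (hB k) (hA.2 ▸ I.mono k _ _ h)⟩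

/-- B3 -/
lemma dem_of_win {k : ι} {V Z : Finset M} {g : M} (hV : cheap I u V) (hZ : Z ⊆ insert g V)
    (h : win I u k Z) : dem I u k V := by
  refine ⟨hV, le_antisymm (hV k) ?_⟩
  have h1 := I.mono k _ _ hZ
  have h2 := I.unit k V g
  rw [h.2] at h1
  omega

lemma acc_up [DecidableEq ι] {c : ι} {C : Finset M} {u' : ι → ℕ} (hle : ∀ k, u k ≤ u' k)
    (hc : u' c = u c) (h : acc I u c C) : acc I u' c C := by
  rcases h with h | h
  · exact Or.inl ⟨fun k => (h.1 k).trans (hle k), by rw [h.2, hc]⟩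
  · exact Or.inr ⟨fun g hg k => (h.1 g hg k).trans (hle k), by rw [h.2, hc]⟩

/-- F1 -/
lemma F1 {a b c : ι} {A B C : Finset M} (hT : Tri a b c) (hmax : Tmax I u) (hD : Dis3 A B C)
    (hA : win I u a A) (hB : acc I u b B) (hC : acc I u c C) : win I u b A ∨ win I u c A := by
  classical
  by_contra hcon
  push Not at hcon
  obtain ⟨h1, h2⟩ := hcon
  obtain ⟨hab, hbc, hac, hk⟩ := hT
  set u' : ι → ℕ := Function.update u a (u a + 1) with hu'
  have ha' : u' a = u a + 1 := by rw [hu', Function.update_self]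
  have hb' : u' b = u b := by rw [hu', Function.update_of_ne hab.symm]
  have hc' : u' c = u c := by rw [hu', Function.update_of_ne hac.symm]
  have hle : ∀ k, u k ≤ u' k := by
    intro k
    rcases hk k with rfl | rfl | rfl
    · omega
    · omega
    · omega
  have hbA : I.v b A ≤ u b := by
    have := emin_le hA.1 b
    by_contra h
    exact h1 ⟨hA.1, by omega⟩
  have hcA : I.v c A ≤ u c := by
    have := emin_le hA.1 c
    by_contra h
    exact h2 ⟨hA.1, by omega⟩
  have := hmax u' a b c A B C ⟨hab, hbc, hac, hk⟩ ⟨hD, Or.inl ⟨fun k => by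
    rcases hk k with rfl | rfl | rfl
    · rw [hA.2, ha']
    · rw [hb']; exact hbA
    · rw [hc']; exact hcA, by rw [hA.2, ha']⟩, acc_up hle hb' hB, acc_up hle hc' hC⟩
  omega

/-- F2 -/
lemma F2 {a b c : ι} {A B C : Finset M} (hT : Tri a b c) (hmax : Tmax I u) (hD : Dis3 A B C)
    (hA : win I u a A) (hB : win I u b B) (hC : acc I u c C) : win I u c A ∨ win I u c B := by
  classical
  by_contra hcon
  push Not at hcon
  obtain ⟨h1, h2⟩ := hcon
  obtain ⟨hab, hbc, hac, hk⟩ := hT
  set u' : ι → ℕ := fun k => if k = c then u k else u k + 1 with hu'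
  have ha' : u' a = u a + 1 := by simp [hu', hac]
  have hb' : u' b = u b + 1 := by simp [hu', hbc]
  have hc' : u' c = u c := by simp [hu']
  have hle : ∀ k, u k ≤ u' k := by
    intro k
    simp only [hu']
    split_ifs <;> omega
  have hcA : I.v c A ≤ u c := by
    have := emin_le hA.1 c
    by_contra h
    exact h1 ⟨hA.1, by omega⟩
  have hcB : I.v c B ≤ u c := by
    have := emin_le hB.1 c
    by_contra h
    exact h2 ⟨hB.1, by omega⟩
  have := hmax u' a b c A B C ⟨hab, hbc, hac, hk⟩ ⟨hD, Or.inl ⟨fun k => by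
    rcases hk k with rfl | rfl | rfl
    · rw [hA.2, ha']
    · rw [hb']; exact emin_le hA.1 _
    · rw [hc']; exact hcA, by rw [hA.2, ha']⟩, Or.inl ⟨fun k => by
    rcases hk k with rfl | rfl | rfl
    · rw [ha']; exact emin_le hB.1 _
    · rw [hb', hB.2]
    · rw [hc']; exact hcB, by rw [hB.2, hb']⟩, acc_up hle hc' hC⟩
  omega

/-- F3 -/
lemma F3 {a b c : ι} {A B C : Finset M} (hT : Tri a b c) (hmax : Tmax I u) (hD : Dis3 A B C)
    (hA : win I u a A) (hB : win I u b B) (hC : win I u c C) : False := by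
  have := hmax (fun k => u k + 1) a b c A B C hT ⟨hD, Or.inl ⟨fun k => emin_le hA.1 k, hA.2⟩,
    Or.inl ⟨fun k => emin_le hB.1 k, hB.2⟩, Or.inl ⟨fun k => emin_le hC.1 k, hC.2⟩⟩
  omega

lemma tri_rot {a b c : ι} (h : Tri a b c) : Tri b c a :=
  ⟨h.2.1, h.2.2.1.symm, h.1.symm, fun k => by rcases h.2.2.2 k with h | h | h <;> simp [h]⟩

lemma tri_swap {a b c : ι} (h : Tri a b c) : Tri b a c :=
  ⟨h.1.symm, h.2.2.1, h.2.1, fun k => by rcases h.2.2.2 k with h | h | h <;> simp [h]⟩

omit [DecidableEq M] in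
lemma dis_rot {A B C : Finset M} (h : Dis3 A B C) : Dis3 B C A :=
  ⟨h.2.1, h.2.2.symm, h.1.symm⟩

omit [DecidableEq M] in
lemma dis_swap {A B C : Finset M} (h : Dis3 A B C) : Dis3 B A C :=
  ⟨h.1.symm, h.2.2, h.2.1⟩

end basic

section two

variable {M ι : Type} [DecidableEq M] [Fintype M] {I : Inst M ι} {u : ι → ℕ}

/-- (a), one half: no minimal bundle won by `a` in the complement -/
lemma compl_cheap_aux {x a b : ι} {V U W Z : Finset M} (hT : Tri x a b) (hmax : Tmax I u)
    (hD : Dis3 V U W) (hD' : Dis3 Z U W) (hx : acc I u x V) (ha : win I u a U) (hb : win I u b W)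
    (hZ : win I u a Z) : False := by
  rcases F2 (tri_rot hT) hmax (dis_rot hD) ha hb hx with h | h
  · exact F3 (tri_swap hT) hmax hD' hZ h hb
  · rcases F1 (tri_rot hT) hmax (dis_rot hD) ha (Or.inr hb) hx with h1 | h1
    · -- `a : Z`, `b : U`, `x : W`
      exact F3 (tri_rot hT) hmax hD' hZ h1 h
    · exact F3 (tri_swap hT) hmax hD' hZ h1 hb

/-- (a) -/
lemma compl_cheap {x a b : ι} {V U W : Finset M} (hT : Tri x a b) (hmax : Tmax I u)
    (hD : Dis3 V U W) (hx : acc I u x V) (ha : win I u a U) (hb : win I u b W) :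
    cheap I u (univ \ (U ∪ W)) := by
  by_contra h
  obtain ⟨Z, hZ, -, -, k, hk⟩ := exists_mn h
  have hD' : Dis3 Z U W := by
    refine ⟨disjoint_left.2 fun z hz hz' => ?_, hD.2.1, disjoint_left.2 fun z hz hz' => ?_⟩
    · have := hZ hz; simp at this; exact this.1 hz'
    · have := hZ hz; simp at this; exact this.2 hz'
  rcases hT.2.2.2 k with rfl | rfl | rfl
  · exact F3 hT hmax hD' hk ha hb
  · exact compl_cheap_aux hT hmax hD hD' hx ha hb hk
  · have hT' : Tri x k a := ⟨hT.2.2.1, hT.2.1.symm, hT.1, fun j => by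
      rcases hT.2.2.2 j with h | h | h <;> simp [h]⟩
    exact compl_cheap_aux hT' hmax ⟨hD.2.2, hD.2.1.symm, hD.1⟩ ⟨hD'.2.2, hD'.2.1.symm, hD'.1⟩
      hx hb ha hk

/-- (b): an agent demanding the third bundle of a state with two winners can be made its owner -/
lemma swap_owner {x a b y z₁ z₂ : ι} {V U W : Finset M} (hT : Tri x a b) (hT' : Tri y z₁ z₂)
    (hmax : Tmax I u) (hD : Dis3 V U W) (hx : dem I u x V) (hy : acc I u y V)
    (h1 : win I u z₁ U) (h2 : win I u z₂ W) :
    (win I u a U ∧ win I u b W) ∨ (win I u b U ∧ win I u a W) := by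
  -- two different agents both different from `x` are `a`, `b`
  have fin : ∀ p q : ι, p ≠ x → q ≠ x → p ≠ q → win I u p U → win I u q W →
      (win I u a U ∧ win I u b W) ∨ (win I u b U ∧ win I u a W) := by
    intro p q hp hq hpq hpU hqW
    rcases hT.2.2.2 p with h | h | h
    · exact absurd h hp
    · rcases hT.2.2.2 q with h' | h' | h'
      · exact absurd h' hq
      · exact absurd (h.trans h'.symm) hpq
      · subst h; subst h'; exact Or.inl ⟨hpU, hqW⟩
    · rcases hT.2.2.2 q with h' | h' | h'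
      · exact absurd h' hq
      · subst h; subst h'; exact Or.inr ⟨hpU, hqW⟩
      · exact absurd (h.trans h'.symm) hpq
  obtain ⟨hyz1, hz12, hyz2, hk⟩ := hT'
  have hTr : Tri z₁ z₂ y := tri_rot ⟨hyz1, hz12, hyz2, hk⟩
  have hTr2 : Tri z₂ y z₁ := (tri_rot hTr)
  rcases hk x with h | h | h
  · subst h
    exact fin z₁ z₂ hyz1.symm hyz2.symm hz12 h1 h2
  · subst h
    -- `x = z₁`
    by_cases hyU : win I u y U
    · exact fin y z₂ hyz1 hz12.symm hyz2 hyU h2
    · have hyW : win I u y W := by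
        rcases F2 hTr hmax (dis_rot hD) h1 h2 hy with h | h
        · exact absurd h hyU
        · exact h
      rcases F1 hTr hmax (dis_rot hD) h1 (Or.inr h2) hy with h | h
      · exact fin z₂ y hz12.symm hyz1 hyz2.symm h hyW
      · exact absurd h hyU
  · subst h
    by_cases hyW : win I u y W
    · exact fin z₁ y hz12 hyz2 hyz1.symm h1 hyW
    · have hyU : win I u y U := by
        rcases F2 hTr hmax (dis_rot hD) h1 h2 hy with h | h
        · exact h
        · exact absurd h hyW
      -- winner `z₂` of `W`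
      rcases F1 hTr2 hmax (dis_rot (dis_rot hD)) h2 hy (Or.inr h1) with h | h
      · exact absurd h hyW
      · exact fin y z₁ hyz2 hz12 hyz1 hyU h

/-- no violation of `x` against the holder of `U` -/
lemma no_viol (hpl : S_PL) {x a b : ι} {V U W P P' : Finset M} (hT : Tri x a b) (hmax : Tmax I u)
    (hD : Dis3 V U W) (huniv : V ∪ U ∪ W = univ) (hx : dem I u x V) (ha : win I u a U)
    (hb : win I u b W) (hP : Disjoint P P') (hPU : P ∪ P' = V ∪ U) (h1 : u x + 1 ≤ I.v x P)
    (h2 : u x + 1 ≤ I.v x P') : False := by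
  classical
  set S := V ∪ U with hS
  have hSW : Disjoint S W := disjoint_union_left.2 ⟨hD.2.2, hD.2.1⟩
  have hcompl : ∀ T : Finset M, T ⊆ S → univ \ (T ∪ W) = S \ T := by
    intro T hTS
    ext z
    simp only [mem_sdiff, mem_univ, true_and, mem_union, not_or]
    constructor
    · rintro ⟨h3, h4⟩
      refine ⟨?_, h3⟩
      have : z ∈ S ∪ W := by rw [huniv]; exact mem_univ _
      rcases mem_union.1 this with h | h
      · exact h
      · exact absurd h h4
    · rintro ⟨h3, h4⟩
      exact ⟨h4, fun h => (disjoint_left.1 hSW) h3 h⟩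
  have hsplit : ∀ A B : Finset M, Disjoint A B → A ∪ B = S →
      u x + 1 ≤ I.v x A ∨ u x + 1 ≤ I.v x B := by
    intro A B hAB hABS
    have := I.feas x P P' A B hP hAB (hPU.trans hABS.symm)
    have h3 : u x + 1 ≤ max (I.v x A) (I.v x B) := le_trans (le_min h1 h2) this
    exact le_max_iff.1 h3
  refine hpl M S P P' (cheap I u) (fun A => u x + 1 ≤ I.v x A)
    (fun V' => V' ⊆ S ∧ cheap I u V' ∧ I.v x V' = u x ∧ emin I u (S \ V') ∧
      ((win I u a (S \ V') ∧ win I u b W) ∨ (win I u b (S \ V') ∧ win I u a W)))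
    (fun A B hAB hB => cheap_sub hAB hB) (fun A B hAB hA => le_trans hA (I.mono x _ _ hAB))
    (fun A hA hc => by have := hc x; omega) hsplit hP hPU h1 h2
    (fun V' h => ⟨h.1, h.2.1, h.2.2.2.1⟩) ?_ V ?_
  · rintro V' ⟨hVS, hVc, hxV, hem, hwin⟩ g hg U' hU' hU'n hU'e
    have hgS : g ∈ S := (mem_sdiff.1 hg).1
    have hU'S : U' ⊆ S := hU'.trans (insert_subset hgS hVS)
    set U₀ := S \ V' with hU₀
    have hxdem : dem I u x V' := ⟨hVc, hxV⟩
    -- `x` wins `U₀`
    have hxU : win I u x U₀ := by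
      refine ⟨hem, le_antisymm (emin_le hem x) ?_⟩
      rcases hsplit V' U₀ disjoint_sdiff (union_sdiff_of_subset hVS) with h | h
      · omega
      · exact h
    have hD0 : Dis3 V' U₀ W := by
      refine ⟨disjoint_sdiff, ?_, ?_⟩
      · exact disjoint_of_subset_left sdiff_subset hSW
      · exact disjoint_of_subset_left hVS hSW
    have hD1 : Dis3 (U₀.erase g) U' W := by
      refine ⟨disjoint_left.2 fun z hz hz' => ?_, disjoint_of_subset_left hU'S hSW,
        disjoint_of_subset_left ((erase_subset _ _).trans sdiff_subset) hSW⟩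
      rw [mem_erase, hU₀, mem_sdiff] at hz
      rcases mem_insert.1 (hU' hz') with h | h
      · exact hz.1 h
      · exact hz.2.2 h
    have hV0sub : U₀.erase g ⊆ S \ U' := by
      intro z hz
      rw [mem_sdiff]
      exact ⟨(mem_sdiff.1 (mem_of_mem_erase hz)).1, fun h => (disjoint_left.1 hD1.1) hz h⟩
    have hwU' : ∃ k, win I u k U' := by
      unfold cheap at hU'n
      push Not at hU'n
      obtain ⟨k, hk⟩ := hU'n
      exact ⟨k, hU'e, le_antisymm (emin_le hU'e k) hk⟩
    obtain ⟨w, hw⟩ := hwU'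
    have hx0 := dem_erase hxU hg
    -- the state with winners on `U'` and `W`
    have hstate : ∃ y z₁ z₂ : ι, Tri y z₁ z₂ ∧ dem I u y (U₀.erase g) ∧ win I u z₁ U' ∧
        win I u z₂ W := by
      have gen : ∀ a' b' : ι, Tri x a' b' → win I u a' U₀ → win I u b' W →
          ∃ y z₁ z₂ : ι, Tri y z₁ z₂ ∧ dem I u y (U₀.erase g) ∧ win I u z₁ U' ∧
            win I u z₂ W := by
        intro a' b' hT' ha' hb'
        rcases hT'.2.2.2 w with h | h | h
        · subst h
          exact ⟨a', w, b', (tri_swap hT'), dem_erase ha' hg, hw, hb'⟩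
        · subst h
          exact ⟨x, w, b', hT', hx0, hw, hb'⟩
        · subst h
          -- another winner of `W`
          rcases F1 (tri_rot (tri_rot hT')) hmax (dis_rot (dis_rot hD0)) hb' (Or.inl hxdem) (Or.inr ha') with h | h
          · exact ⟨a', w, x, (tri_rot hT'), dem_erase ha' hg, hw, h⟩
          · refine ⟨x, w, a', ⟨hT'.2.2.1, hT'.2.1.symm, hT'.1, fun j => ?_⟩, hx0, hw, h⟩
            rcases hT'.2.2.2 j with h | h | h <;> simp [h]
      rcases hwin with ⟨h3, h4⟩ | ⟨h3, h4⟩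
      · exact gen a b hT h3 h4
      · refine gen b a ⟨hT.2.2.1, hT.2.1.symm, hT.1, fun j => ?_⟩ h3 h4
        rcases hT.2.2.2 j with h | h | h <;> simp [h]
    obtain ⟨y, z₁, z₂, hT', hy, hz1, hz2⟩ := hstate
    have hcheap : cheap I u (S \ U') := by
      rw [← hcompl U' hU'S]
      exact compl_cheap hT' hmax hD1 (Or.inl hy) hz1 hz2
    have hxV'' : dem I u x (S \ U') := dem_mono hV0sub hcheap hx0
    have hyV'' : dem I u y (S \ U') := dem_mono hV0sub hcheap hy
    have hD2 : Dis3 (S \ U') U' W := ⟨sdiff_disjoint, hD1.2.1,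
      disjoint_of_subset_left sdiff_subset hSW⟩
    have hfin := swap_owner hT hT' hmax hD2 hxV'' (Or.inl hyV'') hz1 hz2
    have hSS : S \ (S \ U') = U' := Finset.sdiff_sdiff_eq_self hU'S
    refine ⟨sdiff_subset, hcheap, hxV''.2, ?_, ?_⟩
    · rw [hSS]; exact hU'e
    · rw [hSS]; exact hfin
  · have hSV : S \ V = U := by
      rw [hS, union_sdiff_left]
      exact sdiff_eq_self_of_disjoint hD.1.symm
    refine ⟨subset_union_left, hx.1, hx.2, ?_, ?_⟩
    · rw [hSV]; exact ha.1
    · rw [hSV]; exact Or.inl ⟨ha, hb⟩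

theorem two_of (hpl : S_PL) : S_TWO := by
  intro M ι _ _ I u x a b V₀ U W hT hmax hD₀ hx₀ ha hb
  have hcheap := compl_cheap hT hmax hD₀ hx₀ ha hb
  have hx₀' : dem I u x V₀ := by
    rcases hx₀ with h | h
    · exact h
    · exact absurd (F3 hT hmax hD₀ h ha hb) not_false
  set V := univ \ (U ∪ W) with hV
  have hVsub : V₀ ⊆ V := by
    intro z hz
    rw [hV, mem_sdiff, mem_union, not_or]
    exact ⟨mem_univ _, fun h => (disjoint_left.1 hD₀.1) hz h,
      fun h => (disjoint_left.1 hD₀.2.2) hz h⟩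
  have hx : dem I u x V := dem_mono hVsub hcheap hx₀'
  have hD : Dis3 V U W := by
    refine ⟨disjoint_left.2 fun z hz hz' => ?_, hD₀.2.1, disjoint_left.2 fun z hz hz' => ?_⟩
    · rw [hV, mem_sdiff, mem_union] at hz; exact hz.2 (Or.inl hz')
    · rw [hV, mem_sdiff, mem_union] at hz; exact hz.2 (Or.inr hz')
  have huniv : V ∪ U ∪ W = univ := by
    rw [union_assoc, hV]
    exact sdiff_union_of_subset (subset_univ _)
  -- the values of the winners
  have hwin : ∀ (i : ι) (A B P P' : Finset M), win I u i A → I.v i B ≤ u i + 1 → Disjoint A B →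
      Disjoint P P' → P ∪ P' = A ∪ B → min (I.v i P) (I.v i P') ≤ I.v i A := by
    intro i A B P P' hA hB hAB hP hPU
    have := I.feas i P P' A B hP hAB hPU
    rw [hA.2] at this ⊢
    exact this.trans (max_le le_rfl hB)
  refine ⟨x, a, b, V, U, W, hT, hD, huniv, ?_, ?_, ?_, ?_, ?_, ?_⟩
  · intro P P' hP hPU
    by_contra hcon
    push Not at hcon
    rw [hx.2, lt_min_iff] at hcon
    exact no_viol hpl hT hmax hD huniv hx ha hb hP hPU hcon.1 hcon.2
  · intro P P' hP hPU
    by_contra hcon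
    push Not at hcon
    rw [hx.2, lt_min_iff] at hcon
    refine no_viol hpl (x := x) (a := b) (b := a) (V := V) (U := W) (W := U)
      ⟨hT.2.2.1, hT.2.1.symm, hT.1, fun j => ?_⟩ hmax ⟨hD.2.2, hD.2.1.symm, hD.1⟩ ?_ hx hb ha hP
      hPU hcon.1 hcon.2
    · rcases hT.2.2.2 j with h | h | h <;> simp [h]
    · rw [← huniv, union_assoc, union_comm W U, ← union_assoc]
  · intro P P' hP hPU
    exact hwin a U V P P' ha ((hcheap a).trans (Nat.le_succ _)) hD.1.symm hP
      (hPU.trans (union_comm _ _))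
  · intro P P' hP hPU
    exact hwin a U W P P' ha (emin_le hb.1 a) hD.2.1 hP hPU
  · intro P P' hP hPU
    exact hwin b W V P P' hb ((hcheap b).trans (Nat.le_succ _)) hD.2.2.symm hP
      (hPU.trans (union_comm _ _))
  · intro P P' hP hPU
    exact hwin b W U P P' hb (emin_le ha.1 b) hD.2.1.symm hP (hPU.trans (union_comm _ _))

theorem two : S_TWO := two_of pl

end two

end Pool.Agent.Helper6.P3
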